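import Mathlib
import Pool.Agent.Y209.FW.Main
import Pool.Agent.Y903.FWUB
import Pool.Agent.Y454.FWCOP

set_option autoImplicit false

/-!
# How far pairs are from multiplicatively singular

For a pair `(α, β)` of reals the system `S(ε, T)` is
`|p + qα| |r + qβ| < ε / T`, `1 ≤ q ≤ T`, with `p, r, q` integers. We show that for every pair the
system is solvable for all large `T` if `ε > 1/2`, and that for every `ε` below
`(3 - √5) / 2 = 0.3819…` it fails for arbitrarily large `T` for generic pairs, which are moreover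
multiplicatively well approximable (at any prescribed rate).
-/

open Topology Filter Set

namespace Pool.Agent.Results.MP_e45b92_nt.GenericConstant

/-- The system `S(ε, T)` has a solution for the pair `(α, β)`. -/
def Solvable (α β ε T : ℝ) : Prop :=
  ∃ p r q : ℤ, 1 ≤ q ∧ (q : ℝ) ≤ T ∧ |(p : ℝ) + q * α| * |(r : ℝ) + q * β| < ε / T

/-- `(α, β)` is multiplicatively well approximable: for every `ε > 0` the set of `T > 0` for
which `S(ε, T)` has a solution is unbounded. -/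
def MWA (α β : ℝ) : Prop :=
  ∀ ε : ℝ, 0 < ε → ∀ B : ℝ, ∃ T : ℝ, B < T ∧ 0 < T ∧ Solvable α β ε T

/-- `(α, β)` is multiplicatively singular: for every `ε > 0` there is `T₀ > 0` such that
`S(ε, T)` has a solution for every `T > T₀`. -/
def MS (α β : ℝ) : Prop :=
  ∀ ε : ℝ, 0 < ε → ∃ T₀ : ℝ, 0 < T₀ ∧ ∀ T : ℝ, T₀ < T → Solvable α β ε T

/-- `θ` is a Dirichlet constant of the pair `(α, β)`: for every `ε > θ` the system `S(ε, T)` has a
solution for all large `T`. (`MS` means that `0` is one.) -/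
def DirichletConstant (α β θ : ℝ) : Prop :=
  ∀ ε : ℝ, θ < ε → ∃ T₀ : ℝ, 0 < T₀ ∧ ∀ T : ℝ, T₀ < T → Solvable α β ε T

/-- **A universal and a generic constant.** (1) `1/2` is a Dirichlet constant of every pair.
(2) For every positive function `ψ` the pairs `(α, β)` with the following properties form a
residual set: `(α, β)` is multiplicatively well approximable and not multiplicatively singular, the
inequality `|p + qα| |r + qβ| < ψ(T)` with `1 ≤ q ≤ T` is solvable for arbitrarily large `T`, and for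
every `ε < (3 - √5) / 2` the system `S(ε, T)` has no solution for arbitrarily large `T`; so every
Dirichlet constant of `(α, β)` is at least `(3 - √5) / 2`. -/
theorem result :
    (∀ α β : ℝ, DirichletConstant α β (1 / 2)) ∧
    ∀ ψ : ℝ → ℝ, (∀ t, 0 < ψ t) →
      {x : ℝ × ℝ | MWA x.1 x.2 ∧ ¬ MS x.1 x.2 ∧
        (∀ B : ℝ, ∃ T : ℝ, B < T ∧ ∃ p r q : ℤ, 1 ≤ q ∧ (q : ℝ) ≤ T ∧
          |(p : ℝ) + q * x.1| * |(r : ℝ) + q * x.2| < ψ T) ∧
        (∀ ε : ℝ, ε < (3 - √5) / 2 → ∀ B : ℝ, ∃ T : ℝ, B < T ∧ 0 < T ∧ ¬ Solvable x.1 x.2 ε T) ∧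
        ∀ θ : ℝ, DirichletConstant x.1 x.2 θ → (3 - √5) / 2 ≤ θ} ∈ residual (ℝ × ℝ) := by
  have h5 : √5 * √5 = 5 := Real.mul_self_sqrt (by norm_num)
  have h53 : √5 < 3 := by nlinarith [Real.sqrt_nonneg 5]
  refine ⟨fun α β ε hε => ?_, fun ψ hψ => ?_⟩
  · obtain ⟨T₀, hT⟩ := Pool.Agent.Y903.FWUB.t_UB α β ε hε
    exact ⟨max T₀ 1, by positivity, fun T h => hT T (lt_of_le_of_lt (le_max_left _ _) h)⟩
  · have hχ : ∀ t : ℝ, 0 < min (ψ t) (1 / (1 + t ^ 2)) := fun t => lt_min (hψ t) (by positivity)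
    filter_upwards [Pool.Agent.Y209.FW.res
      (fun p hp h17 a d hd => Pool.Agent.Y454.FWCOP.t_COP p hp h17 a d hd)
      (fun t => min (ψ t) (1 / (1 + t ^ 2))) hχ] with x hx
    obtain ⟨h1, h2⟩ := hx
    have h3 : ∀ ε : ℝ, ε < (3 - √5) / 2 → ∀ B : ℝ, ∃ T : ℝ, B < T ∧ 0 < T ∧
        ¬ Solvable x.1 x.2 ε T := by
      intro ε hε B
      obtain ⟨T, hT1, hT2, hT3⟩ := h2 ε hε B
      refine ⟨T, hT1, hT2, ?_⟩
      rintro ⟨p, r, q, hq1, hq2, hlt⟩
      exact absurd hlt (not_lt.2 (hT3 p r q hq1 hq2))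
    have h4 : ∀ θ : ℝ, DirichletConstant x.1 x.2 θ → (3 - √5) / 2 ≤ θ := by
      intro θ hθ
      by_contra hlt
      push Not at hlt
      obtain ⟨ε, hε1, hε2⟩ := exists_between hlt
      obtain ⟨T₀, -, hT₀⟩ := hθ ε hε1
      obtain ⟨T, hT1, -, hT3⟩ := h3 ε hε2 T₀
      exact hT3 (hT₀ T hT1)
    refine ⟨?_, ?_, ?_, h3, h4⟩
    · intro ε hε B
      obtain ⟨T, hT, hT0, p, r, q, hq1, hq2, hlt⟩ := h1 (max (max B 1) (1 / ε))
      have hT1 : B < T := lt_of_le_of_lt ((le_max_left _ _).trans (le_max_left _ _)) hT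
      have hT2 : 1 < T := lt_of_le_of_lt ((le_max_right _ _).trans (le_max_left _ _)) hT
      have hT3 : 1 / ε < T := lt_of_le_of_lt (le_max_right _ _) hT
      refine ⟨T, hT1, hT0, p, r, q, hq1, hq2, hlt.trans_le ((min_le_right _ _).trans ?_)⟩
      rw [div_lt_iff₀ hε] at hT3
      rw [div_le_div_iff₀ (by positivity) hT0]
      nlinarith
    · intro hMS
      have h6 : (0:ℝ) < (3 - √5) / 2 := by linarith
      exact absurd (h4 0 hMS) (not_le.2 h6)
    · intro B
      obtain ⟨T, hT, hT0, p, r, q, hq1, hq2, hlt⟩ := h1 B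
      exact ⟨T, hT, p, r, q, hq1, hq2, hlt.trans_le (min_le_left _ _)⟩

end Pool.Agent.Results.MP_e45b92_nt.GenericConstant
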